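import Pool.Agent.Helper48.TF.Defs5
import Pool.Agent.Helper94.TF.KAP
import Pool.Agent.Helper41.TF.MAT

/-! # TF/STD: the standard identity of semiprime rings with a multilinear identity (helper85) -/

set_option autoImplicit false

namespace Pool.TF48.H85

open Polynomial Pool.TF48 Pool.TF48.Helper94 Pool.TF48.H41

theorem key (h1 : S_LEV) (h2 : S_PRIM) (d : ℕ) (R : Type) [NonUnitalRing R] (hMI : MI d R)
    (hs : Semiprime R) (r : R) (hr0 : r ≠ 0) :
    ∃ (F : Type) (_ : Field F) (h : R →ₙ+* Matrix (Fin (d + 1)) (Fin (d + 1)) F), h r ≠ 0 := by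
  classical
  have hrad : ∀ r : R, r ∈ rad (emb R) → r = 0 := by
    intro r hr
    have h3 := h1 d (rad (emb R)) (MI_sub (NonUnitalSubringClass.subtype (rad (emb R)))
      Subtype.val_injective hMI) (fun x => by
        obtain ⟨n, hn⟩ := rad_nil x.2
        refine ⟨n, lmap_injective (NonUnitalSubringClass.subtype (rad (emb R)))
          Subtype.val_injective ?_⟩
        rw [map_pow, lmap_inr, map_zero]
        exact hn) (semiprime_rad R hs) ⟨r, hr⟩
    exact congrArg Subtype.val h3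
  obtain ⟨a, ha1, ha⟩ := hMI
  obtain ⟨m, hm, hr⟩ := exists_module (ι := emb R) (fun h => hr0 (hrad r h))
  have : IsSimpleModule (UA R)[X] ((UA R)[X] ⧸ m) :=
    isSimpleModule_iff_isCoatom.2 hm.out
  have hne : (C (emb R r) : (UA R)[X]) •
      (Submodule.Quotient.mk 1 : (UA R)[X] ⧸ m) ≠ 0 := by
    rw [← Submodule.Quotient.mk_smul, smul_eq_mul, mul_one]
    intro h
    exact hr ((Submodule.Quotient.mk_eq_zero m).1 h)
  obtain ⟨F, hF, g, hg⟩ := h2 (UA R)[X] ((UA R)[X] ⧸ m) (polyR (emb R))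
    (fun x hx b => polyR_mul (emb_ideal R) hx b)
    ⟨C (emb R r), fun n => by
      rw [coeff_C]
      split_ifs
      · exact ⟨r, rfl⟩
      · exact ⟨0, map_zero _⟩, Submodule.Quotient.mk 1, hne⟩ d a ha1
    (fun x hx => ident (emb R) ha x hx)
  refine ⟨F, hF,
    { toFun := fun s => g (C (emb R s))
      map_mul' := fun s t => by simp only [map_mul]
      map_zero' := by simp
      map_add' := fun s t => by simp }, ?_⟩
  exact fun h => hne (hg _ h _)

theorem coe_sum {R : Type} [NonUnitalRing R] (m : ℕ) (a : Equiv.Perm (Fin (m + 1)) → ℤ)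
    (x : Fin (m + 1) → R) :
    ∑ σ, a σ • (List.ofFn (fun i => (x (σ i) : Unitization ℤ R))).prod =
      ((∑ σ, a σ • mon m (fun i => x (σ i)) : R) : Unitization ℤ R) := by
  have h := map_sum (Unitization.inrHom ℤ ℤ R) (fun σ : Equiv.Perm (Fin (m + 1)) =>
    a σ • mon m (fun i => x (σ i))) Finset.univ
  simp only [map_zsmul] at h
  refine (Finset.sum_congr rfl fun σ _ => ?_).trans h.symm
  rw [mon_coe m (fun i => x (σ i))]
  rfl

theorem std (h1 : S_LEV) (h2 : S_PRIM) : S_STD := by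
  classical
  intro d R _ hMI hs x
  have e : ∑ σ : Equiv.Perm (Fin ((d + 1) * (d + 1) + 1)), ((Equiv.Perm.sign σ : ℤˣ) : ℤ) •
        (List.ofFn (fun i => (x (σ i) : Unitization ℤ R))).prod =
      ((∑ σ : Equiv.Perm (Fin ((d + 1) * (d + 1) + 1)), ((Equiv.Perm.sign σ : ℤˣ) : ℤ) •
        mon ((d + 1) * (d + 1)) (fun i => x (σ i)) : R) : Unitization ℤ R) := by
    exact coe_sum _ (fun σ => ((Equiv.Perm.sign σ : ℤˣ) : ℤ)) x
  rw [e]
  by_contra hne
  obtain ⟨F, hF, h, hh⟩ := key h1 h2 d R hMI hs (∑ σ : Equiv.Perm (Fin ((d + 1) * (d + 1) + 1)),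
    ((Equiv.Perm.sign σ : ℤˣ) : ℤ) • mon ((d + 1) * (d + 1)) (fun i => x (σ i))) (fun h0 => hne (by
      rw [h0]; exact Unitization.inr_zero ℤ))
  apply hh
  rw [map_sum, ← standard F (d + 1) (fun i => h (x i))]
  refine Finset.sum_congr rfl fun σ _ => ?_
  rw [map_zsmul, mon_map, mon_prod]

end Pool.TF48.H85
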